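import Pool.Agent.L0h45.AV.Stm3
import Pool.Agent.L0h32.LR.PELL

/-!
# AV PELLn: few values of `4 a ^ 3 + 27 b ^ 2` are divisible by the square of a large number (`a ≠ 0`)

For `a > 0` this is `L0h32.LR.t_PELL`. For `a < 0`, with `N = - 4 a ^ 3 > 0`: if `27 b ^ 2 - N = m n ^ 2` and
`27 b' ^ 2 - N = m n' ^ 2` with `0 ≤ b < b' ≤ Y < n, n'`, then `N (b' - b) ≥ Y`.
-/

set_option autoImplicit false

namespace Pool.Agent.L0h75.AV

open Finset Pool.Agent.L0h45.LR Pool.Agent.L0h45.AV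
open scoped Classical

theorem gap_neg {N m n n' B B' Y : ℤ} (hm : 1 ≤ m) (hY : 0 < Y) (hn : Y < n) (hn' : Y < n')
    (hN : 0 < N) (hB : 0 ≤ B) (hBB : B < B') (h1 : 27 * B ^ 2 - N = m * n ^ 2)
    (h2 : 27 * B' ^ 2 - N = m * n' ^ 2) : Y ≤ N * (B' - B) := by
  have key : m * ((B * n' - B' * n) * (B * n' + B' * n)) = N * (B' - B) * (B' + B) := by
    linear_combination (B' ^ 2) * h1 - B ^ 2 * h2
  have hs : 0 < B' + B := by omega
  have h3 : Y * (B' + B) ≤ B * n' + B' * n := by nlinarith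
  have h4 : 0 < B * n' + B' * n := lt_of_lt_of_le (mul_pos hY hs) h3
  have h5 : 0 < N * (B' - B) * (B' + B) := mul_pos (mul_pos hN (by omega)) hs
  have h6 : 0 < B * n' - B' * n := by
    by_contra hcon
    have h7 : (B * n' - B' * n) * (B * n' + B' * n) ≤ 0 :=
      mul_nonpos_of_nonpos_of_nonneg (by omega) h4.le
    have h8 : m * ((B * n' - B' * n) * (B * n' + B' * n)) ≤ 0 :=
      mul_nonpos_of_nonneg_of_nonpos (by omega) h7
    omega
  have h7 : B * n' + B' * n ≤ (B * n' - B' * n) * (B * n' + B' * n) :=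
    le_mul_of_one_le_left h4.le h6
  have h8 : (B * n' - B' * n) * (B * n' + B' * n) ≤
      m * ((B * n' - B' * n) * (B * n' + B' * n)) :=
    le_mul_of_one_le_left (mul_pos h6 h4).le hm
  have h9 : Y * (B' + B) ≤ N * (B' - B) * (B' + B) := by
    rw [← key]
    exact h3.trans (h7.trans h8)
  exact le_of_mul_le_mul_right h9 hs

theorem count_le_neg (a : ℤ) (ha : a < 0) (h3a : ¬ (3 : ℤ) ∣ a) (Y : ℕ)
    (hY : -(4 * a ^ 3) < (Y : ℤ) ^ 2) (hY0 : 0 < Y) :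
    ((Icc (-(Y : ℤ)) Y).filter
      (fun b => ∃ n : ℤ, (Y : ℤ) < n ∧ n ^ 2 ∣ 4 * a ^ 3 + 27 * b ^ 2)).card ≤
    27 * (3 * (-(4 * a ^ 3) + 1).toNat) := by
  obtain ⟨N, hN⟩ : ∃ N : ℤ, N = -(4 * a ^ 3) := ⟨_, rfl⟩
  have hN0 : 0 < N := by
    have h1 : 0 < (-a) ^ 3 := pow_pos (by omega) 3
    have h2 : (-a) ^ 3 = -a ^ 3 := by ring
    omega
  have hN4 : 4 * a ^ 3 = -N := by omega
  have hz : ∀ b : ℤ, 27 * b ^ 2 - N ≠ 0 := by
    intro b hb
    have h1 : 4 * a ^ 3 = -(27 * b ^ 2) := by omega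
    have h2 : (3 : ℤ) ∣ 4 * a ^ 3 := by
      rw [h1]
      exact ⟨-(9 * b ^ 2), by ring⟩
    have h3 : IsCoprime (3 : ℤ) 4 := ⟨-1, 1, by norm_num⟩
    have h4 : (3 : ℤ) ∣ a ^ 3 := h3.dvd_of_dvd_mul_left h2
    exact h3a (Int.prime_three.dvd_of_dvd_pow h4)
  rw [← hN] at hY ⊢
  have hYz : (0 : ℤ) < Y := by exact_mod_cast hY0
  have hex : ∀ b : ℤ, ∃ m n : ℤ, b ∈ (Icc (-(Y : ℤ)) Y).filter
      (fun b => ∃ n : ℤ, (Y : ℤ) < n ∧ n ^ 2 ∣ 4 * a ^ 3 + 27 * b ^ 2) →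
      1 ≤ m ∧ m ≤ 27 ∧ (Y : ℤ) < n ∧ 27 * |b| ^ 2 - N = m * n ^ 2 ∧ |b| ≤ Y := by
    intro b
    by_cases hb : b ∈ (Icc (-(Y : ℤ)) Y).filter
      (fun b => ∃ n : ℤ, (Y : ℤ) < n ∧ n ^ 2 ∣ 4 * a ^ 3 + 27 * b ^ 2)
    · obtain ⟨h1, n, h2, m, h3⟩ := mem_filter.1 hb
      rw [mem_Icc] at h1
      have hbY : |b| ≤ Y := abs_le.2 h1
      have hn2 : (Y : ℤ) ^ 2 < n ^ 2 := by nlinarith
      have hb2 : b ^ 2 ≤ (Y : ℤ) ^ 2 := by
        rw [← sq_abs b]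
        exact pow_le_pow_left₀ (abs_nonneg b) hbY 2
      have hn0 : 0 < n ^ 2 := lt_of_le_of_lt (by positivity) hn2
      have h3' : 27 * b ^ 2 - N = n ^ 2 * m := by rw [← h3]; omega
      have hb0 : 0 ≤ b ^ 2 := sq_nonneg b
      have hm0 : 0 < m := by
        by_contra hcon
        rcases Int.lt_or_eq_of_le (not_lt.1 hcon) with h4 | h4
        · have h5 : n ^ 2 * m ≤ n ^ 2 * (-1) := mul_le_mul_of_nonneg_left (by omega) hn0.le
          omega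
        · rw [h4, mul_zero] at h3'
          exact hz b h3'
      refine ⟨m, n, fun _ => ⟨by omega, ?_, h2, ?_, hbY⟩⟩
      · by_contra hcon
        have h4 : n ^ 2 * 28 ≤ n ^ 2 * m := mul_le_mul_of_nonneg_left (by omega) hn0.le
        omega
      · rw [sq_abs, h3']
        ring
    · exact ⟨0, 0, fun h => absurd h hb⟩
  choose m n hmn using hex
  have hinj : Set.InjOn (fun b : ℤ => (m b, b.sign, |b| * N / Y))
      ((Icc (-(Y : ℤ)) Y).filter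
        (fun b => ∃ n : ℤ, (Y : ℤ) < n ∧ n ^ 2 ∣ 4 * a ^ 3 + 27 * b ^ 2) : Finset ℤ) := by
    intro b hb b' hb' h
    simp only [Prod.mk.injEq] at h
    obtain ⟨h1, h2, h3⟩ := h
    obtain ⟨k1, -, k3, k4, -⟩ := hmn b hb
    obtain ⟨l1, -, l3, l4, -⟩ := hmn b' hb'
    rw [← h1] at l1 l4
    have key : ∀ c c' : ℤ, 27 * |c| ^ 2 - N = m b * (n c) ^ 2 → (Y : ℤ) < n c →
        27 * |c'| ^ 2 - N = m b * (n c') ^ 2 → (Y : ℤ) < n c' → |c| < |c'| →
        |c| * N / Y < |c'| * N / Y := by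
      intro c c' e1 e2 e3 e4 e5
      have e6 := gap_neg k1 hYz e2 e4 hN0 (abs_nonneg c) e5 e1 e3
      have e7 : |c| * N / Y + 1 ≤ |c'| * N / Y := by
        rw [Int.le_ediv_iff_mul_le hYz, add_mul, one_mul]
        have e8 := Int.ediv_mul_le (|c| * N) hYz.ne'
        have e9 : N * (|c'| - |c|) = |c'| * N - |c| * N := by ring
        omega
      omega
    have habs : |b| = |b'| := by
      rcases lt_trichotomy |b| |b'| with h4 | h4 | h4
      · have := key b b' k4 k3 l4 l3 h4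
        omega
      · exact h4
      · have := key b' b l4 l3 k4 k3 h4
        omega
    rw [← Int.sign_mul_abs b, ← Int.sign_mul_abs b', h2, habs]
  have hmaps : Set.MapsTo (fun b : ℤ => (m b, b.sign, |b| * N / Y))
      ((Icc (-(Y : ℤ)) Y).filter
        (fun b => ∃ n : ℤ, (Y : ℤ) < n ∧ n ^ 2 ∣ 4 * a ^ 3 + 27 * b ^ 2) : Finset ℤ)
      ((Icc (1 : ℤ) 27 ×ˢ (Icc (-1 : ℤ) 1 ×ˢ Icc (0 : ℤ) N) : Finset (ℤ × ℤ × ℤ))) := by
    intro b hb
    obtain ⟨k1, k2, k3, k4, k5⟩ := hmn b hb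
    rw [mem_coe, mem_product, mem_product, mem_Icc, mem_Icc, mem_Icc]
    refine ⟨⟨k1, k2⟩, ⟨?_, ?_⟩, ⟨?_, ?_⟩⟩
    · show -1 ≤ b.sign
      rcases lt_trichotomy b 0 with h | h | h
      · rw [Int.sign_eq_neg_one_of_neg h]
      · rw [h, Int.sign_zero]; norm_num
      · rw [Int.sign_eq_one_of_pos h]; norm_num
    · show b.sign ≤ 1
      rcases lt_trichotomy b 0 with h | h | h
      · rw [Int.sign_eq_neg_one_of_neg h]; norm_num
      · rw [h, Int.sign_zero]; norm_num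
      · rw [Int.sign_eq_one_of_pos h]
    · show 0 ≤ |b| * N / Y
      exact Int.ediv_nonneg (mul_nonneg (abs_nonneg b) hN0.le) hYz.le
    · show |b| * N / Y ≤ N
      apply Int.ediv_le_of_le_mul hYz
      rw [mul_comm N]
      exact mul_le_mul_of_nonneg_right k5 hN0.le
  refine (card_le_card_of_injOn _ hmaps hinj).trans ?_
  rw [card_product, card_product, Int.card_Icc, Int.card_Icc, Int.card_Icc, sub_zero]
  exact le_rfl

/-- PELLn -/
theorem t_PELLn : S_PELLn := by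
  intro a ε ha0 h3a hε
  rcases lt_or_gt_of_ne ha0 with ha | ha
  · obtain ⟨Y₁, hY₁⟩ := exists_nat_gt (((27 * (3 * (-(4 * a ^ 3) + 1).toNat) : ℕ) : ℝ) / ε)
    refine ⟨max (max Y₁ (-(4 * a ^ 3)).toNat) 2, fun Y hY => ?_⟩
    have h1 : Y₁ ≤ Y := (le_max_left _ _).trans ((le_max_left _ _).trans hY)
    have h2 : (-(4 * a ^ 3)).toNat ≤ Y := (le_max_right _ _).trans ((le_max_left _ _).trans hY)
    have h3 : 2 ≤ Y := (le_max_right _ _).trans hY
    have h4 : -(4 * a ^ 3) < (Y : ℤ) ^ 2 := by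
      have h5 : -(4 * a ^ 3) ≤ (Y : ℤ) := by omega
      have h6 : (2 : ℤ) ≤ Y := by exact_mod_cast h3
      nlinarith
    have h5 := count_le_neg a ha h3a Y h4 (by omega)
    have h6 : (((27 * (3 * (-(4 * a ^ 3) + 1).toNat) : ℕ) : ℝ)) ≤ ε * Y := by
      rw [div_lt_iff₀ hε] at hY₁
      have : (Y₁ : ℝ) ≤ Y := by exact_mod_cast h1
      nlinarith
    exact le_trans (Nat.cast_le.2 h5) h6
  · exact Pool.Agent.L0h32.LR.t_PELL a ε ha hε

end Pool.Agent.L0h75.AV
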